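import Pool.Agent.Helper92.GG.Stmts
import Pool.Agent.Helper92.GG.RK

/-! # TALG: the theorem over algebraically closed fields -/

set_option autoImplicit false
set_option linter.unusedSectionVars false

namespace Pool.Agent.Helper92.GG

open MvPolynomial
open Pool.Agent.Helper49.Girth (cl ty ty_add_two ty_succ)

universe u

section ns

variable {K : Type u} [Field K] [IsAlgClosed K] {ι : Type} [Finite ι] {L : Type u} [Field L]
  [Algebra K L]

theorem TALG_ns (a : ι → L) (g : MvPolynomial ι K) (hg : aeval a g ≠ 0) :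
    ∃ b : ι → K, Spec K a b ∧ aeval b g ≠ 0 := by
  have hP : (RingHom.ker (aeval (R := K) a)).IsPrime := RingHom.ker_isPrime _
  have h1 := IsPrime.vanishingIdeal_zeroLocus (K := K) (RingHom.ker (aeval (R := K) a))
  by_contra hcon
  push Not at hcon
  apply hg
  have h2 : g ∈ vanishingIdeal K (zeroLocus K (RingHom.ker (aeval (R := K) a))) := by
    rw [mem_vanishingIdeal_iff]
    intro b hb
    exact hcon b (fun f hf => (mem_zeroLocus_iff.mp hb) f hf)
  rw [h1] at h2
  exact h2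

/-- `Q` can be achieved by an inequation -/
def TALG_Req (a : ι → L) (Q : (ι → K) → Prop) : Prop :=
  ∃ g : MvPolynomial ι K, aeval a g ≠ 0 ∧ ∀ b : ι → K, Spec K a b → aeval b g ≠ 0 → Q b

theorem TALG_Req.get {a : ι → L} {Q : (ι → K) → Prop} (h : TALG_Req a Q) :
    ∃ b : ι → K, Spec K a b ∧ Q b := by
  obtain ⟨g, hg, h⟩ := h
  obtain ⟨b, hb, hb'⟩ := TALG_ns a g hg
  exact ⟨b, hb, h b hb hb'⟩

theorem TALG_Req.and {a : ι → L} {Q Q' : (ι → K) → Prop} (h : TALG_Req a Q)
    (h' : TALG_Req a Q') : TALG_Req a (fun b => Q b ∧ Q' b) := by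
  obtain ⟨g, hg, h⟩ := h
  obtain ⟨g', hg', h'⟩ := h'
  refine ⟨g * g', by rw [map_mul]; exact mul_ne_zero hg hg', fun b hb hgg => ?_⟩
  rw [map_mul] at hgg
  exact ⟨h b hb (left_ne_zero_of_mul hgg), h' b hb (right_ne_zero_of_mul hgg)⟩

theorem TALG_Req.mk {a : ι → L} {g : MvPolynomial ι K} (hg : aeval a g ≠ 0) :
    TALG_Req a (fun b : ι → K => (aeval b g : K) ≠ 0) := ⟨g, hg, fun _ _ h => h⟩

theorem TALG_Req.tr (a : ι → L) : TALG_Req (K := K) a (fun _ => True) :=
  ⟨1, by simp, fun _ _ _ => trivial⟩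

theorem TALG_Req.imp {a : ι → L} {Q Q' : (ι → K) → Prop} (h : TALG_Req a Q)
    (hQ : ∀ b, Spec K a b → Q b → Q' b) : TALG_Req a Q' := by
  obtain ⟨g, hg, h⟩ := h
  exact ⟨g, hg, fun b hb hb' => hQ b hb (h b hb hb')⟩

theorem TALG_Req.lt {a : ι → L} {r : ℕ} {Q : ℕ → (ι → K) → Prop}
    (h : ∀ i < r, TALG_Req a (Q i)) : TALG_Req a (fun b => ∀ i < r, Q i b) := by
  induction r with
  | zero => exact (TALG_Req.tr a).imp (fun b _ _ i hi => absurd hi (Nat.not_lt_zero i))
  | succ r ih =>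
    refine ((ih (fun i hi => h i (Nat.lt_succ_of_lt hi))).and (h r (Nat.lt_succ_self r))).imp ?_
    rintro b - ⟨h1, h2⟩ i hi
    rcases Nat.lt_succ_iff_lt_or_eq.mp hi with hi | rfl
    · exact h1 i hi
    · exact h2

end ns

section walks

variable {K : Type u} [Field K] [IsAlgClosed K] {N D : ℕ}
  (S : Fin D → Set (MvPolynomial (Fin N ⊕ Fin N) K)) (g : Fin D → MvPolynomial (Fin N ⊕ Fin N) K)
  {L : Type u} [Field L] [Algebra K L]

/-- vertices of the graph -/
def TALG_vert (σ : Bool) (x : Fin N → K) : (Fin N → K) ⊕ (Fin N → K) :=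
  cond σ (Sum.inl x) (Sum.inr x)

theorem TALG_vert_inj {σ : Bool} {x y : Fin N → K} (h : TALG_vert σ x = TALG_vert σ y) :
    x = y := by
  cases σ
  · exact Sum.inr_injective h
  · exact Sum.inl_injective h

/-- index type -/
abbrev TALG_I (m N : ℕ) : Type := Bool × Fin (2 * m + 1) × Fin N

/-- the tuple of coordinates of two sequences -/
def TALG_a (m : ℕ) (v v' : ℕ → Fin N → L) : TALG_I m N → L :=
  fun t => cond t.1 (v t.2.1 t.2.2) (v' t.2.1 t.2.2)

/-- the sequence of vertices -/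
def TALG_s {m : ℕ} (τ : Bool) (b : TALG_I m N → L) (i : ℕ) : Fin N → L :=
  fun c => b (τ, Fin.ofNat (2 * m + 1) i, c)

theorem TALG_s_a {m : ℕ} (τ : Bool) (v v' : ℕ → Fin N → L) {i : ℕ} (hi : i ≤ 2 * m) :
    TALG_s τ (TALG_a m v v') i = cond τ (v i) (v' i) := by
  funext c
  have h : ((Fin.ofNat (2 * m + 1) i : Fin (2 * m + 1)) : ℕ) = i := by
    rw [Fin.val_ofNat, Nat.mod_eq_of_lt (by omega)]
  unfold TALG_s TALG_a
  cases τ
  · simp only [cond_false, h]
  · simp only [cond_true, h]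

/-- reindexing for an edge -/
def TALG_e {m : ℕ} (τ σ : Bool) (i : ℕ) : Fin N ⊕ Fin N → TALG_I m N :=
  Sum.elim (fun c => (τ, Fin.ofNat (2 * m + 1) (cond σ i (i + 1)), c))
    (fun c => (τ, Fin.ofNat (2 * m + 1) (cond σ (i + 1) i), c))

theorem TALG_e_comp {L' : Type u} {m : ℕ} (τ σ : Bool) (i : ℕ) (b : TALG_I m N → L') :
    b ∘ TALG_e τ σ i = Sum.elim (fun c => b (τ, Fin.ofNat (2 * m + 1) (cond σ i (i + 1)), c))
      (fun c => b (τ, Fin.ofNat (2 * m + 1) (cond σ (i + 1) i), c)) := by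
  funext t
  cases t <;> rfl

theorem TALG_adj {m : ℕ} {σ : Bool} (τ : Bool) {b : TALG_I m N → K} {i : ℕ}
    (h : PRel S g K (fun c => b (τ, Fin.ofNat (2 * m + 1) (cond σ i (i + 1)), c))
      (fun c => b (τ, Fin.ofNat (2 * m + 1) (cond σ (i + 1) i), c))) :
    (polyGraph S g K).Adj (TALG_vert σ (TALG_s τ b i)) (TALG_vert (!σ) (TALG_s τ b (i + 1))) := by
  cases σ
  · exact Or.inr ⟨_, _, rfl, rfl, h⟩
  · exact Or.inl ⟨_, _, rfl, rfl, h⟩

/-- one half of the requirements -/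
theorem TALG_half {m : ℕ} {i₀ : Fin D} {P : Ideal (MvPolynomial (Fin N ⊕ Fin N) K)}
    (hS : ∀ f ∈ S i₀, f ∈ P) (hg : g i₀ ∉ P) (σ τ : Bool) (r : ℕ) (hr : r ≤ 2 * m)
    (v v' : ℕ → Fin N → L) (hw : IsWalk P σ r (fun i => cond τ (v i) (v' i)))
    (hn : NB r (fun i => cond τ (v i) (v' i))) :
    TALG_Req (K := K) (TALG_a m v v') (fun b =>
      (∀ i < r, (polyGraph S g K).Adj (TALG_vert (ty σ i) (TALG_s τ b i))
        (TALG_vert (ty σ (i + 1)) (TALG_s τ b (i + 1)))) ∧
      (∀ i < r - 1, TALG_vert (ty σ i) (TALG_s τ b i) ≠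
        TALG_vert (ty σ (i + 2)) (TALG_s τ b (i + 2)))) := by
  refine TALG_Req.and (TALG_Req.lt (fun i hi => ?_)) (TALG_Req.lt (fun i hi => ?_))
  · have he := hw i hi
    unfold Edge at he
    have hcomp : TALG_a m v v' ∘ TALG_e τ (ty σ i) i = Sum.elim
        (cond (ty σ i) (cond τ (v i) (v' i)) (cond τ (v (i + 1)) (v' (i + 1))))
        (cond (ty σ i) (cond τ (v (i + 1)) (v' (i + 1))) (cond τ (v i) (v' i))) := by
      have h1 := TALG_s_a (m := m) τ v v' (i := i) (by omega)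
      have h2 := TALG_s_a (m := m) τ v v' (i := i + 1) (by omega)
      rw [TALG_e_comp]
      cases ty σ i
      · change Sum.elim (TALG_s τ (TALG_a m v v') (i + 1)) (TALG_s τ (TALG_a m v v') i) = _
        rw [h1, h2]
        rfl
      · change Sum.elim (TALG_s τ (TALG_a m v v') i) (TALG_s τ (TALG_a m v v') (i + 1)) = _
        rw [h1, h2]
        rfl
    have hgn : aeval (TALG_a m v v') (rename (TALG_e τ (ty σ i) i) (g i₀)) ≠ 0 := by
      rw [aeval_rename, hcomp]
      intro h0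
      apply hg
      rw [← he]
      exact h0
    refine (TALG_Req.mk hgn).imp (fun b hb hgb => ?_)
    rw [ty_succ]
    refine TALG_adj S g τ ⟨i₀, ?_, ?_⟩
    · intro f hf
      have h1 := hb.comp (TALG_e τ (ty σ i) i) f (by
        rw [hcomp]
        have := hS f hf
        rw [← he] at this
        exact this)
      rw [TALG_e_comp] at h1
      exact h1
    · rw [aeval_rename, TALG_e_comp] at hgb
      exact hgb
  · have hne := hn i (by omega)
    have : ∃ c, cond τ (v i) (v' i) c ≠ cond τ (v (i + 2)) (v' (i + 2)) c := by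
      by_contra hcon
      push Not at hcon
      exact hne (funext hcon)
    obtain ⟨c, hc⟩ := this
    have hgn : aeval (TALG_a m v v') (X (R := K) (τ, Fin.ofNat (2 * m + 1) i, c) -
        X (τ, Fin.ofNat (2 * m + 1) (i + 2), c)) ≠ 0 := by
      rw [map_sub, aeval_X, aeval_X, sub_ne_zero]
      have h1 := congrFun (TALG_s_a (m := m) τ v v' (i := i) (by omega)) c
      have h2 := congrFun (TALG_s_a (m := m) τ v v' (i := i + 2) (by omega)) c
      unfold TALG_s at h1 h2
      rw [h1, h2]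
      exact hc
    refine (TALG_Req.mk hgn).imp (fun b hb hgb => ?_)
    intro heq
    rw [ty_add_two] at heq
    have h3 := congrFun (TALG_vert_inj heq) c
    apply hgb
    rw [map_sub, aeval_X, aeval_X, sub_eq_zero]
    exact h3

/-- the transfer of two walks -/
theorem TALG_core (hGr : ST_GRAPH.{u}) {m : ℕ} (hgirth : ((2 * m : ℕ) : ℕ∞) < (polyGraph S g K).egirth)
    {i₀ : Fin D} {P : Ideal (MvPolynomial (Fin N ⊕ Fin N) K)}
    (hS : ∀ f ∈ S i₀, f ∈ P) (hg : g i₀ ∉ P) (σ : Bool) (r r' : ℕ) (v v' : ℕ → Fin N → L)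
    (hrr : r + r' ≤ 2 * m) (hw : IsWalk P σ r v) (hw' : IsWalk P σ r' v') (hn : NB r v)
    (hn' : NB r' v') (h0 : v 0 = v' 0) (hty : ty σ r = ty σ r') (hr : v r = v' r')
    {Q : (TALG_I m N → K) → Prop} (hQ : TALG_Req (TALG_a m v v') Q) :
    ∃ b, Q b ∧ r = r' ∧ ∀ i ≤ r, TALG_s true b i = TALG_s false b i := by
  have H1 := TALG_half S g hS hg σ true r (by omega : r ≤ 2 * m) v v' hw hn
  have H2 := TALG_half S g hS hg σ false r' (by omega : r' ≤ 2 * m) v v' hw' hn'
  obtain ⟨b, hb, ⟨⟨h1, h2⟩, h3, h4⟩, h5⟩ := ((H1.and H2).and hQ).get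
  have hpt : ∀ i j : ℕ, i ≤ 2 * m → j ≤ 2 * m → v i = v' j →
      TALG_s true b i = TALG_s false b j := by
    intro i j hi hj hij
    funext c
    have h6 := hb (X (true, Fin.ofNat (2 * m + 1) i, c) - X (false, Fin.ofNat (2 * m + 1) j, c)) (by
      rw [map_sub, aeval_X, aeval_X, sub_eq_zero]
      have e1 := congrFun (TALG_s_a (m := m) true v v' (i := i) hi) c
      have e2 := congrFun (TALG_s_a (m := m) false v v' (i := j) hj) c
      unfold TALG_s at e1 e2
      rw [e1, e2]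
      exact congrFun hij c)
    rw [map_sub, aeval_X, aeval_X, sub_eq_zero] at h6
    exact h6
  have h7 := hGr _ (polyGraph S g K) (2 * m) hgirth r r'
    (fun i => TALG_vert (ty σ i) (TALG_s true b i)) (fun i => TALG_vert (ty σ i) (TALG_s false b i))
    hrr h1 h3 (fun i hi => h2 i (by omega)) (fun i hi => h4 i (by omega))
    (by
      rw [hpt 0 0 (by omega) (by omega) h0])
    (by
      rw [hpt r r' (by omega) (by omega) hr, hty])
  exact ⟨b, h5, h7.1, fun i hi => TALG_vert_inj (h7.2 i hi)⟩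

theorem TALG_uniq (hGr : ST_GRAPH.{u}) {m : ℕ}
    (hgirth : ((2 * m : ℕ) : ℕ∞) < (polyGraph S g K).egirth)
    {i₀ : Fin D} {P : Ideal (MvPolynomial (Fin N ⊕ Fin N) K)}
    (hS : ∀ f ∈ S i₀, f ∈ P) (hg : g i₀ ∉ P) : Uniq P m := by
  intro L _ _ σ r r' v v' hrr hw hw' hn hn' h0 hty hr
  refine ⟨?_, fun i hi => ?_⟩
  · obtain ⟨b, -, h, -⟩ := TALG_core S g hGr hgirth hS hg σ r r' v v' hrr hw hw' hn hn' h0 hty hr
      (TALG_Req.tr _)
    exact h
  · funext c
    by_contra hc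
    have hgn : aeval (TALG_a m v v') (X (R := K) (true, Fin.ofNat (2 * m + 1) i, c) -
        X (false, Fin.ofNat (2 * m + 1) i, c)) ≠ 0 := by
      rw [map_sub, aeval_X, aeval_X, sub_ne_zero]
      have e1 := congrFun (TALG_s_a (m := m) true v v' (i := i) (by omega)) c
      have e2 := congrFun (TALG_s_a (m := m) false v v' (i := i) (by omega)) c
      unfold TALG_s at e1 e2
      rw [e1, e2]
      exact hc
    obtain ⟨b, hb, -, h⟩ := TALG_core S g hGr hgirth hS hg σ r r' v v' hrr hw hw' hn hn' h0 hty hr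
      (TALG_Req.mk hgn)
    apply hb
    rw [map_sub, aeval_X, aeval_X, sub_eq_zero]
    exact congrFun (h i hi) c

end walks

theorem st_TALG (hGr : ST_GRAPH.{u}) (hM : ST_MOORE.{u}) (hK2 : ST_K2.{u}) (hF : ST_FIN1.{u}) :
    ST_TALG.{u} := by
  intro K _ _ m hm N D S g hN hgirth L _ _ p l hpl
  by_contra hcon
  have hle : (m + 1) * N ≤ m * rk K (Set.range p ∪ Set.range l) := by omega
  obtain ⟨i₀, h1, h2⟩ := hpl
  have hU := TALG_uniq S g hGr hgirth (i₀ := i₀)
    (P := RingHom.ker (aeval (R := K) (Sum.elim p l))) (fun f hf => h1 f hf) (fun h => h2 h)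
  have hpos : 1 ≤ rk K (Set.range p ∪ Set.range l) := by
    rcases Nat.eq_zero_or_pos (rk K (Set.range p ∪ Set.range l)) with h0 | h0
    · exfalso
      rw [h0, Nat.mul_zero] at hle
      have : 0 < (m + 1) * N := Nat.mul_pos (Nat.succ_pos m) hN
      omega
    · exact h0
  have hcard : ∀ x : Fin N → L, rk K (Set.range x) ≤ N := by
    intro x
    have := rk_range_le (K := K) x
    simpa using this
  obtain ⟨k, S', -⟩ := hM K N m N _ (by omega) hU L p l rfl (hcard p) (hcard l) hle hpos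
  obtain rfl := hK2 K N m k S'
  have := hF K N m S'
  omega

end Pool.Agent.Helper92.GG
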